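import Mathlib

/-!
If `p` divides the numerator of `B_n` (`n` even, `2 ≤ n ≤ p - 3`) then `p` divides
`∑_{b < p/2} b^(n-1)`.
-/

set_option autoImplicit false

namespace Pool.Agent.Q279.RP

open Finset

section
variable (p : ℕ) [hp : Fact p.Prime]

/-- `p`-integrality of the first Bernoulli numbers -/
theorem bern_int (i : ℕ) (hi : i + 2 ≤ p) : padicNorm p (_root_.bernoulli i) ≤ 1 := by
  induction i using Nat.strong_induction_on with
  | _ i ih =>
    have h1 := sum_bernoulli (i + 1)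
    rw [Finset.sum_range_succ] at h1
    have h2 : (((i + 1 : ℕ) : ℚ)) * _root_.bernoulli i =
        (if i + 1 = 1 then 1 else 0) -
          ∑ k ∈ range i, ((i + 1).choose k : ℚ) * _root_.bernoulli k := by
      rw [← h1]
      have : (i + 1).choose i = i + 1 := by simp
      rw [this]; ring
    have h3 : padicNorm p ((if i + 1 = 1 then 1 else 0) -
          ∑ k ∈ range i, ((i + 1).choose k : ℚ) * _root_.bernoulli k) ≤ 1 := by
      refine padicNorm.sub.trans (max_le ?_ ?_)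
      · split_ifs
        · simp
        · simp
      · refine padicNorm.sum_le' (fun k hk => ?_) zero_le_one
        rw [padicNorm.mul]
        have hk' := Finset.mem_range.mp hk
        exact mul_le_one₀ (padicNorm.of_nat _) (padicNorm.nonneg _) (ih k hk' (by omega))
    rw [← h2, padicNorm.mul] at h3
    have h4 : padicNorm p ((i + 1 : ℕ) : ℚ) = 1 := by
      rw [padicNorm.nat_eq_one_iff]
      exact Nat.not_dvd_of_pos_of_lt (by omega) (by omega)
    rwa [h4, one_mul] at h3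

/-- from the Bernoulli number to the sum of powers -/
theorem sum_of_bern (k : ℕ) (h2 : 2 ≤ k) (hk : k + 3 ≤ p)
    (hB : (p : ℤ) ∣ (_root_.bernoulli k).num) : (p : ℤ) ^ 2 ∣ ∑ t ∈ range p, (t : ℤ) ^ k := by
  have hp0 : (0 : ℚ) < p := by exact_mod_cast hp.out.pos
  have hp1 : (1 : ℚ) < p := by exact_mod_cast hp.out.one_lt
  have hpn : padicNorm p (p : ℚ) = (p : ℚ)⁻¹ := padicNorm.padicNorm_p hp.out.one_lt
  have hk1 : padicNorm p ((k : ℚ) + 1) = 1 := by
    have : ((k : ℚ) + 1) = ((k + 1 : ℕ) : ℚ) := by push_cast; ring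
    rw [this, padicNorm.nat_eq_one_iff]
    exact Nat.not_dvd_of_pos_of_lt (by omega) (by omega)
  have hF := sum_range_pow p k
  rw [Finset.sum_range_succ] at hF
  have e1 : _root_.bernoulli k * ((k + 1).choose k : ℚ) * (p : ℚ) ^ (k + 1 - k) / ((k : ℚ) + 1) =
      _root_.bernoulli k * p := by
    have : (k + 1).choose k = k + 1 := by simp
    rw [this, Nat.add_sub_cancel_left, pow_one]
    have : ((k : ℚ) + 1) ≠ 0 := by positivity
    push_cast
    field_simp
  rw [e1] at hF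
  have h4 : padicNorm p (∑ i ∈ range k, _root_.bernoulli i * ((k + 1).choose i : ℚ) *
      (p : ℚ) ^ (k + 1 - i) / ((k : ℚ) + 1)) ≤ (p : ℚ) ^ (-(2 : ℕ) : ℤ) := by
    refine padicNorm.sum_le' (fun i hi => ?_) (by positivity)
    have hi' := Finset.mem_range.mp hi
    rw [padicNorm.div, hk1, div_one, padicNorm.mul, padicNorm.mul]
    have e2 : padicNorm p ((p : ℚ) ^ (k + 1 - i)) ≤ (p : ℚ) ^ (-(2 : ℕ) : ℤ) := by
      have : (p : ℚ) ^ (k + 1 - i) = ((p ^ (k + 1 - i) : ℕ) : ℤ) := by push_cast; rfl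
      rw [this, ← padicNorm.dvd_iff_norm_le]
      have : p ^ 2 ∣ p ^ (k + 1 - i) := pow_dvd_pow _ (by omega)
      exact_mod_cast this
    have e3 : padicNorm p (_root_.bernoulli i) * padicNorm p ((k + 1).choose i : ℚ) ≤ 1 :=
      mul_le_one₀ (bern_int p i (by omega)) (padicNorm.nonneg _) (padicNorm.of_nat _)
    calc _ ≤ 1 * (p : ℚ) ^ (-(2 : ℕ) : ℤ) :=
          mul_le_mul e3 e2 (padicNorm.nonneg _) zero_le_one
      _ = _ := one_mul _
  -- the norm of `B_k` is at most `1 / p`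
  have hden : padicNorm p ((_root_.bernoulli k).den : ℚ) = 1 := by
    rw [padicNorm.nat_eq_one_iff]
    intro hd
    have hc := (_root_.bernoulli k).reduced
    have h1 : p ∣ (_root_.bernoulli k).num.natAbs := Int.natCast_dvd.mp hB
    have h2 : p ∣ 1 := by
      rw [← Nat.coprime_iff_gcd_eq_one.mp hc]
      exact Nat.dvd_gcd h1 hd
    exact hp.out.one_lt.ne' (Nat.dvd_one.mp h2)
  have h6 : padicNorm p (_root_.bernoulli k) ≤ (p : ℚ)⁻¹ := by
    have e5 : _root_.bernoulli k = (((_root_.bernoulli k).num : ℤ) : ℚ) /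
      ((_root_.bernoulli k).den : ℚ) := (Rat.num_div_den _).symm
    rw [e5, padicNorm.div, hden, div_one]
    have := (padicNorm.dvd_iff_norm_le (p := p) (n := 1)
      (z := (_root_.bernoulli k).num)).mp (by simpa using hB)
    simpa using this
  have h5 : padicNorm p (_root_.bernoulli k * p) ≤ (p : ℚ) ^ (-(2 : ℕ) : ℤ) := by
    rw [padicNorm.mul, hpn]
    have : (p : ℚ) ^ (-(2 : ℕ) : ℤ) = (p : ℚ)⁻¹ * (p : ℚ)⁻¹ := by
      rw [zpow_neg, zpow_natCast, pow_two, mul_inv]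
    rw [this]
    exact mul_le_mul_of_nonneg_right h6 (by positivity)
  have h3 : padicNorm p (∑ t ∈ range p, (t : ℚ) ^ k) ≤ (p : ℚ) ^ (-(2 : ℕ) : ℤ) := by
    rw [hF]
    exact padicNorm.nonarchimedean.trans (max_le h4 h5)
  have := (padicNorm.dvd_iff_norm_le (p := p) (n := 2)
      (z := ∑ t ∈ range p, (t : ℤ) ^ k)).mpr (by push_cast; exact_mod_cast h3)
  exact_mod_cast this

end

section split
variable {M : Type*} [AddCommGroup M]

theorem split_half (h : ℕ) (f : ℕ → M) (h0 : f 0 = 0) :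
    ∑ t ∈ range (2 * h + 1), f t = ∑ b ∈ Icc 1 h, f b + ∑ b ∈ Icc 1 h, f (2 * h + 1 - b) := by
  have e1 : ∑ b ∈ Icc 1 h, f b = ∑ b ∈ range (h + 1), f b := by
    rw [sum_range_succ', h0, add_zero]
    rw [show Icc 1 h = Ico 1 (h + 1) from rfl, sum_Ico_eq_sum_range]
    refine sum_congr (by simp) fun i _ => by rw [add_comm]
  have e2 : ∑ b ∈ Icc 1 h, f (2 * h + 1 - b) = ∑ b ∈ range h, f (h + 1 + b) := by
    rw [← sum_range_reflect]
    rw [show Icc 1 h = Ico 1 (h + 1) from rfl, sum_Ico_eq_sum_range]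
    refine sum_congr (by simp) fun i hi => ?_
    have : i < h := by simpa using hi
    congr 1
    omega
  rw [e1, e2, show 2 * h + 1 = (h + 1) + h by ring, sum_range_add]

theorem split_even (h : ℕ) (f : ℕ → M) (h0 : f 0 = 0) :
    ∑ t ∈ range (2 * h + 1), f t =
      ∑ b ∈ Icc 1 h, f (2 * b) + ∑ b ∈ Icc 1 h, f (2 * h + 1 - 2 * b) := by
  have e1 : ∑ b ∈ Icc 1 h, f (2 * b) = ∑ b ∈ range (h + 1), f (2 * b) := by
    rw [sum_range_succ', mul_zero, h0, add_zero]
    rw [show Icc 1 h = Ico 1 (h + 1) from rfl, sum_Ico_eq_sum_range]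
    refine sum_congr (by simp) fun i _ => by rw [add_comm]
  have e2 : ∑ b ∈ Icc 1 h, f (2 * h + 1 - 2 * b) = ∑ b ∈ range h, f (2 * b + 1) := by
    rw [← sum_range_reflect]
    rw [show Icc 1 h = Ico 1 (h + 1) from rfl, sum_Ico_eq_sum_range]
    refine sum_congr (by simp) fun i hi => ?_
    have : i < h := by simpa using hi
    congr 1
    omega
  rw [e1, e2]
  clear e1 e2
  induction h with
  | zero => simp
  | succ h ih =>
    rw [show 2 * (h + 1) + 1 = (2 * h + 1) + 1 + 1 by ring, sum_range_succ, sum_range_succ, ih,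
      sum_range_succ (n := h + 1), sum_range_succ (fun b => f (2 * b + 1))]
    rw [show 2 * h + 1 + 1 = 2 * (h + 1) by ring]
    abel

end split

theorem pow_sub_mod (p x : ℤ) (n : ℕ) (hn : Even n) :
    ∃ c : ℤ, (p - x) ^ n = x ^ n - n * p * x ^ (n - 1) + c * p ^ 2 := by
  obtain ⟨k, hk⟩ := Polynomial.powAddExpansion (-x) p n
  refine ⟨k, ?_⟩
  have h1 : (p - x) ^ n = (-x + p) ^ n := by ring
  rw [h1, hk, hn.neg_pow]
  rcases Nat.eq_zero_or_pos n with rfl | h
  · simp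
  · have ho : Odd (n - 1) := Nat.Even.sub_odd (by omega) hn odd_one
    rw [ho.neg_pow]
    ring

theorem half_sum (p : ℕ) [hp : Fact p.Prime] (n : ℕ) (h2 : 2 ≤ n) (hn : Even n) (hnp : n + 3 ≤ p)
    (hB : (p : ℤ) ∣ (_root_.bernoulli n).num) :
    (p : ℤ) ∣ ∑ b ∈ Icc 1 ((p - 1) / 2), (b : ℤ) ^ (n - 1) := by
  have hodd : Odd p := hp.out.odd_of_ne_two (by omega)
  obtain ⟨h, hh⟩ := hodd
  have hh2 : (p - 1) / 2 = h := by omega
  rw [hh2]
  have hS := sum_of_bern p n h2 hnp hB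
  set T : ℤ := ∑ b ∈ Icc 1 h, (b : ℤ) ^ (n - 1) with hT
  set U : ℤ := ∑ b ∈ Icc 1 h, (b : ℤ) ^ n with hU
  have hp2 : (p : ℤ) = 2 * h + 1 := by exact_mod_cast hh
  have e1 : ∃ c : ℤ, ∑ t ∈ range p, (t : ℤ) ^ n = 2 * U - n * p * T + c * p ^ 2 := by
    choose c hc using fun x : ℤ => pow_sub_mod (p : ℤ) x n hn
    refine ⟨∑ b ∈ Icc 1 h, c b, ?_⟩
    conv_lhs => rw [hh]
    rw [split_half h (fun t => (t : ℤ) ^ n) (by simp; omega)]
    have : ∑ b ∈ Icc 1 h, ((2 * h + 1 - b : ℕ) : ℤ) ^ n =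
        ∑ b ∈ Icc 1 h, ((b : ℤ) ^ n - n * p * (b : ℤ) ^ (n - 1) + c b * p ^ 2) := by
      refine sum_congr rfl fun b hb => ?_
      rw [mem_Icc] at hb
      rw [← hc, hp2]
      congr 1
      omega
    rw [this, sum_add_distrib, sum_sub_distrib, ← mul_sum, ← sum_mul]
    ring
  have e2 : ∃ c : ℤ, ∑ t ∈ range p, (t : ℤ) ^ n =
      2 ^ (n + 1) * U - n * p * 2 ^ (n - 1) * T + c * p ^ 2 := by
    choose c hc using fun x : ℤ => pow_sub_mod (p : ℤ) x n hn
    refine ⟨∑ b ∈ Icc 1 h, c (2 * b), ?_⟩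
    conv_lhs => rw [hh]
    rw [split_even h (fun t => (t : ℤ) ^ n) (by simp; omega)]
    have : ∑ b ∈ Icc 1 h, ((2 * h + 1 - 2 * b : ℕ) : ℤ) ^ n =
        ∑ b ∈ Icc 1 h, (2 ^ n * (b : ℤ) ^ n - n * p * 2 ^ (n - 1) * (b : ℤ) ^ (n - 1)
          + c (2 * b) * p ^ 2) := by
      refine sum_congr rfl fun b hb => ?_
      rw [mem_Icc] at hb
      have h1 := hc (2 * b)
      rw [mul_pow, mul_pow] at h1
      have h3 : ((2 * h + 1 - 2 * b : ℕ) : ℤ) = (p : ℤ) - 2 * b := by rw [hp2]; omega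
      rw [h3, h1]
      ring
    have h4 : ∑ b ∈ Icc 1 h, ((2 * b : ℕ) : ℤ) ^ n = 2 ^ n * U := by
      rw [hU, mul_sum]
      refine sum_congr rfl fun b _ => ?_
      push_cast
      ring
    rw [this, h4, sum_add_distrib, sum_sub_distrib, ← mul_sum, ← mul_sum, ← sum_mul]
    ring
  obtain ⟨c1, e1⟩ := e1
  obtain ⟨c2, e2⟩ := e2
  obtain ⟨s, hs⟩ := hS
  have hn1 : (2 : ℤ) ^ n = 2 * 2 ^ (n - 1) := by
    rw [← pow_succ']
    congr 1
    omega
  have hn2 : (2 : ℤ) ^ (n + 1) = 4 * 2 ^ (n - 1) := by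
    rw [pow_succ, hn1]; ring
  have key : (p : ℤ) * (n * 2 ^ (n - 1) * T) = p * (p * (c1 * 2 ^ n - c2 - s * (2 ^ n - 1))) := by
    have a1 := e1
    have a2 := e2
    rw [hs] at a1 a2
    rw [hn2] at a2
    rw [hn1]
    linear_combination (2 * 2 ^ (n - 1)) * a1 - a2
  have hp0 : (p : ℤ) ≠ 0 := by exact_mod_cast hp.out.ne_zero
  have key2 := mul_left_cancel₀ hp0 key
  have hpr : Prime (p : ℤ) := Nat.prime_iff_prime_int.mp hp.out
  have hd : (p : ℤ) ∣ n * 2 ^ (n - 1) * T := ⟨_, key2⟩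
  rcases hpr.dvd_or_dvd hd with hd | hd
  · exfalso
    rcases hpr.dvd_or_dvd hd with hd | hd
    · have := Int.natCast_dvd_natCast.mp hd
      have := Nat.le_of_dvd (by omega) this
      omega
    · have h3 := hpr.dvd_of_dvd_pow hd
      have h4 : p ∣ 2 := by exact_mod_cast h3
      have := Nat.le_of_dvd (by omega) h4
      omega
  · exact hd

end Pool.Agent.Q279.RP
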