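import Pool.Agent.Q279.RP.Bern
import Pool.Agent.H916R2.OddChar
import Pool.Agent.H343R2.PV

/-!
The half sums `∑_{a < p/2} χ(a)` of the odd characters modulo `p`: not zero, and at most
`√p (1 + log p)`.
-/

set_option autoImplicit false

namespace Pool.Agent.Q279.RP

open Finset Pool.Agent.H916R2

section
variable (p : ℕ) [hp : Fact p.Prime]

theorem SS_one_ne (χ : DirichletCharacter ℂ p) (hχ : χ.Odd) : SS χ 1 ≠ 0 := by
  obtain ⟨a, ha⟩ := exists_SS_ne_zero χ hχ
  intro h1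
  apply ha
  by_cases h0 : a = 0
  · unfold SS
    refine sum_eq_zero fun t _ => ?_
    rw [h0, mul_zero, saw_zero]
    simp
  · let u : (ZMod p)ˣ := Units.mk0 a h0
    have hu : (u : ZMod p) = a := rfl
    have : SS χ a = χ ((u⁻¹ : (ZMod p)ˣ) : ZMod p) * SS χ 1 := by
      unfold SS
      rw [mul_sum, ← Equiv.sum_comp (Equiv.mulRight u⁻¹)]
      refine sum_congr rfl fun t _ => ?_
      simp only [Equiv.coe_mulRight, mul_one, Units.val_mul, map_mul]
      have : (t : ZMod p) * ((u⁻¹ : (ZMod p)ˣ) : ZMod p) * a = t := by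
        rw [← hu, mul_assoc, Units.inv_mul, mul_one]
      rw [this]
      ring
    rw [this, h1, mul_zero]

theorem sum_units_range (f : ZMod p → ℂ) (h0 : f 0 = 0) :
    ∑ t : (ZMod p)ˣ, f (t : ZMod p) = ∑ t ∈ range p, f ((t : ℕ) : ZMod p) := by
  have h1 : ∑ t ∈ range p, f ((t : ℕ) : ZMod p) = ∑ x : ZMod p, f x := by
    symm
    refine sum_bij' (fun x _ => ZMod.val x) (fun t _ => ((t : ℕ) : ZMod p)) ?_ ?_ ?_ ?_ ?_
    · intro x _; exact mem_range.mpr (ZMod.val_lt x)
    · intro t _; exact mem_univ _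
    · intro x _; exact ZMod.natCast_zmod_val x
    · intro t ht; exact ZMod.val_cast_of_lt (mem_range.mp ht)
    · intro x _; rw [ZMod.natCast_zmod_val]
  rw [h1]
  have h2 : ∑ x : ZMod p, f x = ∑ x ∈ univ.filter (fun x : ZMod p => x ≠ 0), f x := by
    rw [sum_filter]
    refine sum_congr rfl fun x _ => ?_
    split_ifs with h
    · rfl
    · rw [not_not.mp h, h0]
  rw [h2]
  refine sum_bij' (fun t _ => (t : ZMod p))
    (fun x hx => Units.mk0 x (by simpa using hx)) ?_ ?_ ?_ ?_ ?_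
  · intro t _; simp
  · intro x _; exact mem_univ _
  · intro t _; ext; rfl
  · intro x _; rfl
  · intro t _; rfl

theorem half_ne_zero (χ : DirichletCharacter ℂ p) (hp3 : 3 ≤ p) (hχ : χ.Odd) :
    ∑ a ∈ Icc 1 ((p - 1) / 2), χ ((a : ℕ) : ZMod p) ≠ 0 := by
  intro hT
  obtain ⟨h, hh⟩ := hp.out.odd_of_ne_two (by omega)
  rw [show (p - 1) / 2 = h by omega] at hT
  have hχ1 : χ ≠ 1 := by
    intro h1
    unfold DirichletCharacter.Odd at hχ
    rw [h1, MulChar.one_apply (by simp : IsUnit (-1 : ZMod p))] at hχ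
    norm_num at hχ
  have hneg : ∀ x : ZMod p, χ (-x) = - χ x := fun x => DirichletCharacter.Odd.eval_neg (ψ := χ) x hχ
  have hχ0 : χ 0 = 0 := MulChar.map_zero χ
  set S : ℂ := ∑ t ∈ range p, (t : ℂ) * χ ((t : ℕ) : ZMod p) with hS
  set U : ℂ := ∑ b ∈ Icc 1 h, (b : ℂ) * χ ((b : ℕ) : ZMod p) with hU
  have hp2 : (p : ℂ) = 2 * h + 1 := by exact_mod_cast hh
  have e1 : S = 2 * U := by
    have : S = ∑ t ∈ range (2 * h + 1), (fun t : ℕ => (t : ℂ) * χ ((t : ℕ) : ZMod p)) t :=
      sum_congr (congrArg range hh) fun _ _ => rfl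
    rw [this, split_half h _ (by simp)]
    have h3 : ∑ b ∈ Icc 1 h, (((2 * h + 1 - b : ℕ) : ℂ) * χ (((2 * h + 1 - b : ℕ) : ℕ) : ZMod p)) =
        ∑ b ∈ Icc 1 h, ((b : ℂ) * χ ((b : ℕ) : ZMod p) - p * χ ((b : ℕ) : ZMod p)) := by
      refine sum_congr rfl fun b hb => ?_
      rw [mem_Icc] at hb
      rw [← hh, Nat.cast_sub (by omega), Nat.cast_sub (by omega), ZMod.natCast_self, zero_sub, hneg]
      ring
    rw [h3, sum_sub_distrib, ← mul_sum, hT]
    ring
  have e2 : S = 4 * χ 2 * U := by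
    have : S = ∑ t ∈ range (2 * h + 1), (fun t : ℕ => (t : ℂ) * χ ((t : ℕ) : ZMod p)) t :=
      sum_congr (congrArg range hh) fun _ _ => rfl
    rw [this, split_even h _ (by simp)]
    have h3 : ∑ b ∈ Icc 1 h, (((2 * h + 1 - 2 * b : ℕ) : ℂ) *
          χ (((2 * h + 1 - 2 * b : ℕ) : ℕ) : ZMod p)) =
        ∑ b ∈ Icc 1 h, (2 * χ 2 * ((b : ℂ) * χ ((b : ℕ) : ZMod p)) -
          p * χ 2 * χ ((b : ℕ) : ZMod p)) := by
      refine sum_congr rfl fun b hb => ?_
      rw [mem_Icc] at hb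
      rw [← hh, Nat.cast_sub (by omega), Nat.cast_sub (by omega), ZMod.natCast_self, zero_sub, hneg]
      push_cast
      rw [map_mul]
      ring
    have h4 : ∑ b ∈ Icc 1 h, (((2 * b : ℕ) : ℂ) * χ (((2 * b : ℕ) : ℕ) : ZMod p)) =
        ∑ b ∈ Icc 1 h, (2 * χ 2 * ((b : ℂ) * χ ((b : ℕ) : ZMod p))) := by
      refine sum_congr rfl fun b _ => ?_
      push_cast
      rw [map_mul]
      ring
    rw [h3, h4, sum_sub_distrib, ← mul_sum, ← mul_sum, hT]
    ring
  have e3 : SS χ 1 = 2 * S := by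
    unfold SS
    have h5 := sum_units_range p (fun x => χ x * (saw x : ℂ)) (by simp [hχ0])
    have h6 : ∑ t : (ZMod p)ˣ, χ t * (saw ((t : ZMod p) * 1) : ℂ) =
      ∑ t : (ZMod p)ˣ, (fun x => χ x * (saw x : ℂ)) (t : ZMod p) := by
      refine sum_congr rfl fun t _ => by rw [mul_one]
    rw [h6, h5]
    have h7 : ∑ t ∈ range p, (fun x => χ x * (saw x : ℂ)) ((t : ℕ) : ZMod p) =
        ∑ t ∈ range p, (2 * ((t : ℂ) * χ ((t : ℕ) : ZMod p)) - p * χ ((t : ℕ) : ZMod p)) := by
      refine sum_congr rfl fun t ht => ?_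
      rw [mem_range] at ht
      simp only
      by_cases h0 : t = 0
      · subst h0; simp [hχ0]
      · have hne : ((t : ℕ) : ZMod p) ≠ 0 := by
          intro hc
          rw [ZMod.natCast_eq_zero_iff] at hc
          have := Nat.le_of_dvd (by omega) hc
          omega
        unfold saw
        rw [if_neg hne, ZMod.val_cast_of_lt ht]
        push_cast
        ring
    rw [h7, sum_sub_distrib, ← mul_sum, ← mul_sum]
    have h8 : ∑ t ∈ range p, χ ((t : ℕ) : ZMod p) = 0 := by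
      rw [← sum_units_range p (fun x => χ x) hχ0]
      have h9 := MulChar.sum_eq_zero_of_ne_one hχ1
      have h10 := sum_units_range p (fun x => χ x) hχ0
      rw [h10]
      rw [← h9]
      symm
      refine sum_bij' (fun x _ => ZMod.val x) (fun t _ => ((t : ℕ) : ZMod p)) ?_ ?_ ?_ ?_ ?_
      · intro x _; exact mem_range.mpr (ZMod.val_lt x)
      · intro t _; exact mem_univ _
      · intro x _; exact ZMod.natCast_zmod_val x
      · intro t ht; exact ZMod.val_cast_of_lt (mem_range.mp ht)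
      · intro x _; rw [ZMod.natCast_zmod_val]
    rw [h8]
    ring
  have hne := SS_one_ne p χ hχ
  rw [e3] at hne
  have hS0 : S ≠ 0 := fun h => hne (by rw [h, mul_zero])
  have h10 : S * (1 - 2 * χ 2) = 0 := by
    have := e2
    linear_combination e2 - 2 * χ 2 * e1
  rcases mul_eq_zero.mp h10 with h | h
  · exact hS0 h
  · have h11 : ‖χ 2‖ ≤ 1 := DirichletCharacter.norm_le_one χ 2
    have h12 : χ 2 = 1 / 2 := by linear_combination (-1 / 2) * h
    have h13 : IsUnit (2 : ZMod p) := by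
      rw [isUnit_iff_ne_zero]
      intro hc
      have : ((2 : ℕ) : ZMod p) = 0 := by exact_mod_cast hc
      rw [ZMod.natCast_eq_zero_iff] at this
      have := Nat.le_of_dvd (by omega) this
      omega
    have h14 : ‖χ 2‖ = 1 := by
      obtain ⟨u, hu⟩ := h13
      rw [← hu]
      exact DirichletCharacter.unit_norm_eq_one χ u
    rw [h12] at h14
    norm_num at h14

theorem half_le (χ : DirichletCharacter ℂ p) (hχ1 : χ ≠ 1) (N : ℕ) :
    ‖∑ a ∈ Icc 1 N, χ ((a : ℕ) : ZMod p)‖ ≤ Real.sqrt p * (1 + Real.log p) := by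
  apply H343.PVaux.PV_plain p N hp.out.two_le χ
  rw [DirichletCharacter.isPrimitive_def]
  rcases (Nat.dvd_prime hp.out).mp χ.conductor_dvd_level with h | h
  · exact absurd (DirichletCharacter.eq_one_iff_conductor_eq_one.mpr h) hχ1
  · exact h

theorem half_root (hp3 : 3 ≤ p) (r : (ZMod p)ˣ) (hr : ∀ x, x ∈ Subgroup.zpowers r)
    (m g : ℕ) (hmg : m * g = p - 1) (hg : Odd g) (ζ : ℂ) (hζ : IsPrimitiveRoot ζ m)
    (ind : ℕ → ℕ) (hind : ∀ a ∈ Icc 1 ((p - 1) / 2), ((a : ℕ) : ZMod p) = (r : ZMod p) ^ ind a) :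
    ∑ a ∈ Icc 1 ((p - 1) / 2), ζ ^ ind a ≠ 0 ∧
      ‖∑ a ∈ Icc 1 ((p - 1) / 2), ζ ^ ind a‖ ≤ Real.sqrt p * (1 + Real.log p) := by
  have hm0 : m ≠ 0 := by rintro rfl; omega
  have hg0 : g ≠ 0 := by rintro rfl; omega
  have hζ0 : ζ ≠ 0 := hζ.ne_zero hm0
  have hζ1 : ζ ^ (p - 1) = 1 := by rw [← hmg, pow_mul, hζ.pow_eq_one, one_pow]
  let z : ℂˣ := Units.mk0 ζ hζ0
  have hz : z ∈ rootsOfUnity (Fintype.card (ZMod p)ˣ) ℂ := by
    rw [mem_rootsOfUnity, ZMod.card_units p]
    ext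
    simpa [z] using hζ1
  let χ : DirichletCharacter ℂ p := MulChar.ofRootOfUnity hz hr
  have hχr : χ (r : ZMod p) = ζ := MulChar.ofRootOfUnity_spec hz hr
  have hsum : ∑ a ∈ Icc 1 ((p - 1) / 2), ζ ^ ind a =
      ∑ a ∈ Icc 1 ((p - 1) / 2), χ ((a : ℕ) : ZMod p) := by
    refine sum_congr rfl fun a ha => ?_
    rw [hind a ha, map_pow, hχr]
  have hodd : χ.Odd := by
    unfold DirichletCharacter.Odd
    obtain ⟨h, hh⟩ := hp.out.odd_of_ne_two (by omega)
    have hord : orderOf r = p - 1 := by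
      rw [orderOf_eq_card_of_forall_mem_zpowers hr, Nat.card_eq_fintype_card, ZMod.card_units p]
    have h1 : (r : ZMod p) ^ h = -1 := by
      have h2 : ((r : ZMod p) ^ h) ^ 2 = 1 := by
        rw [← pow_mul, ← Units.val_pow_eq_pow_val, show h * 2 = orderOf r by omega,
          pow_orderOf_eq_one, Units.val_one]
      rcases eq_or_eq_neg_of_sq_eq_sq _ (1 : ZMod p) (by rw [h2, one_pow]) with h3 | h3
      · exfalso
        have h4 : r ^ h = 1 := by
          ext
          rw [Units.val_pow_eq_pow_val, h3, Units.val_one]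
        have h5 := orderOf_dvd_of_pow_eq_one h4
        have := Nat.le_of_dvd (by omega) h5
        omega
      · exact h3
    rw [← h1, map_pow, hχr]
    have hm2 : Even m := by
      have : Even (m * g) := ⟨h, by omega⟩
      rcases Nat.even_mul.mp this with h2 | h2
      · exact h2
      · exact absurd h2 (Nat.not_even_iff_odd.mpr hg)
    obtain ⟨l, hl⟩ := hm2
    have h3 : h = l * g := by
      have : 2 * h = 2 * (l * g) := by
        calc 2 * h = p - 1 := by omega
          _ = m * g := hmg.symm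
          _ = 2 * (l * g) := by rw [hl]; ring
      omega
    have h4 : ζ ^ l = -1 := by
      have h5 : (ζ ^ l) ^ 2 = 1 := by
        rw [← pow_mul, show l * 2 = m by omega, hζ.pow_eq_one]
      rcases eq_or_eq_neg_of_sq_eq_sq _ (1 : ℂ) (by rw [h5, one_pow]) with h6 | h6
      · exfalso
        have := Nat.le_of_dvd (by omega) (hζ.dvd_of_pow_eq_one l h6)
        omega
      · exact h6
    rw [h3, pow_mul, h4, hg.neg_one_pow]
  have hχ1 : χ ≠ 1 := by
    intro h1
    unfold DirichletCharacter.Odd at hodd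
    rw [h1, MulChar.one_apply (by simp : IsUnit (-1 : ZMod p))] at hodd
    norm_num at hodd
  rw [hsum]
  exact ⟨half_ne_zero p χ hp3 hodd, half_le p χ hχ1 _⟩

end

end Pool.Agent.Q279.RP
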