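import Pool.Agent.Q279.RP.Main

/-!
Counting the gcd classes, the logarithmic form and the asymptotic form of the bound.
-/

set_option autoImplicit false

namespace Pool.Agent.Q279.RP

open Finset

/-- the regular indices `i` with `gcd (2i - 1, p - 1) = g` -/
def Reg (p g : ℕ) : Finset ℕ :=
  (Icc 1 ((p - 3) / 2)).filter (fun i => Nat.gcd (2 * i - 1) (p - 1) = g ∧
    ¬ (p : ℤ) ∣ (_root_.bernoulli (2 * i)).num)

theorem class_card (p : ℕ) (hodd : Odd p) (hp3 : 3 ≤ p) (g : ℕ) (hg : Odd g) (hgd : g ∣ p - 1) :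
    ((Icc 1 ((p - 1) / 2)).filter (fun i => Nat.gcd (2 * i - 1) (p - 1) = g)).card =
      Nat.totient ((p - 1) / g) := by
  rw [Nat.totient_div_of_dvd hgd]
  obtain ⟨h, hh⟩ := hodd
  refine card_bij' (fun i _ => 2 * i - 1) (fun k _ => (k + 1) / 2) ?_ ?_ ?_ ?_
  · intro i hi
    rw [mem_filter, mem_Icc] at hi
    rw [mem_filter, mem_range, Nat.gcd_comm]
    exact ⟨by omega, hi.2⟩
  · intro k hk
    rw [mem_filter, mem_range] at hk
    have hk2 : k % 2 = 1 := by
      by_contra hc
      have h1 : 2 ∣ k := by omega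
      have h2 : 2 ∣ p - 1 := ⟨h, by omega⟩
      have h3 : 2 ∣ g := by rw [← hk.2]; exact Nat.dvd_gcd h2 h1
      have := Nat.odd_iff.mp hg
      omega
    rw [mem_filter, mem_Icc]
    have h4 : 2 * ((k + 1) / 2) - 1 = k := by omega
    exact ⟨by omega, by rw [h4, Nat.gcd_comm]; exact hk.2⟩
  · intro i hi
    rw [mem_filter, mem_Icc] at hi
    show (2 * i - 1 + 1) / 2 = i
    omega
  · intro k hk
    rw [mem_filter, mem_range] at hk
    have hk2 : k % 2 = 1 := by
      by_contra hc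
      have h1 : 2 ∣ k := by omega
      have h2 : 2 ∣ p - 1 := ⟨h, by omega⟩
      have h3 : 2 ∣ g := by rw [← hk.2]; exact Nat.dvd_gcd h2 h1
      have := Nat.odd_iff.mp hg
      omega
    show 2 * ((k + 1) / 2) - 1 = k
    omega

theorem reg_add_irr (p : ℕ) (hodd : Odd p) (hp3 : 3 ≤ p) (g : ℕ) (hg : Odd g) (hgd : g ∣ p - 1) :
    (Reg p g).card + (Irr p g).card + (if g = 1 then 1 else 0) = Nat.totient ((p - 1) / g) := by
  rw [← class_card p hodd hp3 g hg hgd]
  obtain ⟨h, hh⟩ := hodd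
  have h1 : (Reg p g).card + (Irr p g).card =
      ((Icc 1 ((p - 3) / 2)).filter (fun i => Nat.gcd (2 * i - 1) (p - 1) = g)).card := by
    have h2 := card_filter_add_card_filter_not
      (s := (Icc 1 ((p - 3) / 2)).filter (fun i => Nat.gcd (2 * i - 1) (p - 1) = g))
      (fun i => (p : ℤ) ∣ (_root_.bernoulli (2 * i)).num)
    rw [filter_filter, filter_filter] at h2
    rw [← h2, add_comm]
    rfl
  rw [h1]
  have h3 : Icc 1 ((p - 1) / 2) = insert ((p - 1) / 2) (Icc 1 ((p - 3) / 2)) := by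
    ext x
    rw [mem_insert, mem_Icc, mem_Icc]
    omega
  rw [h3, filter_insert]
  have h4 : Nat.gcd (2 * ((p - 1) / 2) - 1) (p - 1) = 1 := by
    have h5 : 2 * ((p - 1) / 2) - 1 + 1 = p - 1 := by omega
    have h6 : Nat.Coprime (2 * ((p - 1) / 2) - 1) (2 * ((p - 1) / 2) - 1 + 1) := by simp
    rw [h5] at h6
    exact h6
  rw [h4]
  have h7 : (p - 1) / 2 ∉ (Icc 1 ((p - 3) / 2)).filter
      (fun i => Nat.gcd (2 * i - 1) (p - 1) = g) := by
    rw [mem_filter, mem_Icc]
    omega
  by_cases hg1 : g = 1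
  · subst hg1
    rw [if_pos rfl, if_pos rfl, card_insert_of_notMem h7]
  · rw [if_neg hg1, if_neg (fun h => hg1 h.symm), add_zero]

theorem log_form (p : ℕ) [hp : Fact p.Prime] (hp3 : 3 ≤ p) (g : ℕ) (hg : Odd g) (hgd : g ∣ p - 1) :
    ((Irr p g).card : ℝ) ≤
      (1 / 2 + Real.log (1 + Real.log p) / Real.log p) * Nat.totient ((p - 1) / g) := by
  have h1 := main_bound p hp3 g hg hgd
  have hp0 : (0 : ℝ) < p := by exact_mod_cast hp.out.pos
  have hp1 : (1 : ℝ) < p := by exact_mod_cast hp.out.one_lt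
  have hl : 0 < Real.log p := Real.log_pos hp1
  have h2 := Real.log_le_log (by positivity) h1
  rw [Real.log_pow, Real.log_pow, Real.log_mul (by positivity) (by positivity), Real.log_sqrt hp0.le]
    at h2
  have h3 : (1 / 2 + Real.log (1 + Real.log p) / Real.log p) * Nat.totient ((p - 1) / g) =
      (Nat.totient ((p - 1) / g) * (Real.log p / 2 + Real.log (1 + Real.log p))) / Real.log p := by
    field_simp
  rw [h3, le_div_iff₀ hl]
  exact h2

theorem exp_large : ∀ p : ℕ, 13 ≤ p → 1 + Real.log p < Real.sqrt p := by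
  intro p hp
  have hp13 : (13 : ℝ) ≤ p := by exact_mod_cast hp
  -- with `x = √p`: `1 + 2 log x < x`
  set x := Real.sqrt p with hx
  have hx0 : 0 < x := Real.sqrt_pos.mpr (by linarith)
  have hxx : x ^ 2 = p := Real.sq_sqrt (by linarith)
  have hlog : Real.log p = 2 * Real.log x := by
    rw [← hxx, Real.log_pow]; norm_num
  rw [hlog]
  -- log x = log (x / 3.6) + log 3.6 ≤ x / 3.6 - 1 + log 3.6
  have h1 : Real.log x ≤ x / (18 / 5) - 1 + Real.log (18 / 5) := by
    have h2 := Real.log_le_sub_one_of_pos (show 0 < x / (18 / 5) by positivity)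
    rw [Real.log_div hx0.ne' (by norm_num)] at h2
    linarith
  have h36 : Real.log (18 / 5) < 1.2810 := by
    rw [Real.log_lt_iff_lt_exp (by norm_num)]
    have h3 := Real.exp_bound' (x := 0.2810) (by norm_num) (by norm_num) (n := 6) (by norm_num)
    have h4 : Real.exp 1.2810 = Real.exp 1 * Real.exp 0.2810 := by
      rw [← Real.exp_add]; norm_num
    rw [h4]
    have h5 := Real.exp_one_gt_d9
    have h6 : (1.3244 : ℝ) < Real.exp 0.2810 := by
      have h7 := Real.sum_le_exp_of_nonneg (x := 0.2810) (by norm_num) 6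
      refine lt_of_lt_of_le ?_ h7
      norm_num [Finset.sum_range_succ, Nat.factorial]
    nlinarith [Real.exp_pos 1]
  have hx36 : (3.6055 : ℝ) < x := by
    rw [hx]
    apply Real.lt_sqrt_of_sq_lt
    norm_num
    linarith
  -- need 1 + 2 (x / 3.6 - 1 + log 3.6) < x, i.e. 2 log 3.6 - 1 < x (1 - 2/3.6)
  have h8 : x * (1 - 2 / (18 / 5)) > 1.6024 := by norm_num; linarith
  nlinarith

end Pool.Agent.Q279.RP
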