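import Pool.Agent.Q279.RP.Count

/-!
Regular indices in every gcd class and the asymptotic form.
-/

set_option autoImplicit false

namespace Pool.Agent.Q279.RP

open Finset Filter

theorem bern_four : (_root_.bernoulli 4).num = -1 := by
  rw [bernoulli_eq_bernoulli'_of_ne_one (by norm_num), bernoulli'_four]
  norm_num

theorem bern_six : (_root_.bernoulli 6).num = 1 := by
  have h5 : bernoulli' 5 = 0 := bernoulli'_eq_zero_of_odd (by decide) (by norm_num)
  have h6 : bernoulli' 6 = 1 / 42 := by
    rw [bernoulli'_def]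
    norm_num [sum_range_succ, bernoulli'_zero, bernoulli'_one, bernoulli'_two, bernoulli'_three,
      bernoulli'_four, h5, Nat.choose]
  rw [bernoulli_eq_bernoulli'_of_ne_one (by norm_num), h6]
  norm_num

theorem reg_nonempty (p : ℕ) [hp : Fact p.Prime] (hp5 : 5 ≤ p) (g : ℕ) (hg : Odd g)
    (hgd : g ∣ p - 1) : (Reg p g).Nonempty := by
  by_cases hg1 : g = 1
  · subst hg1
    refine ⟨1, ?_⟩
    rw [Reg, mem_filter, mem_Icc]
    refine ⟨by omega, by simp, ?_⟩
    rw [mul_one, bernoulli_two]
    intro h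
    have h1 : ((6 : ℚ)⁻¹).num = 1 := by norm_num
    rw [h1] at h
    have := Int.le_of_dvd one_pos h
    omega
  · by_cases h13 : 13 ≤ p
    · by_contra hc
      rw [not_nonempty_iff_eq_empty] at hc
      have h1 := reg_add_irr p (hp.out.odd_of_ne_two (by omega)) (by omega) g hg hgd
      rw [hc, card_empty, zero_add, if_neg hg1, add_zero] at h1
      have h2 := main_bound p (by omega) g hg hgd
      rw [h1] at h2
      have hφ : Nat.totient ((p - 1) / g) ≠ 0 := by
        have : 0 < (p - 1) / g := Nat.div_pos (Nat.le_of_dvd (by omega) hgd) hg.pos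
        exact (Nat.totient_pos.mpr this).ne'
      have hp0 : (0 : ℝ) < p := by exact_mod_cast hp.out.pos
      have h3 : Real.sqrt p * (1 + Real.log p) < p := by
        have h4 := exp_large p h13
        have h5 : 0 < Real.sqrt p := Real.sqrt_pos.mpr hp0
        calc Real.sqrt p * (1 + Real.log p) < Real.sqrt p * Real.sqrt p :=
              mul_lt_mul_of_pos_left h4 h5
          _ = p := Real.mul_self_sqrt hp0.le
      have h6 : (0 : ℝ) ≤ Real.sqrt p * (1 + Real.log p) := by
        have : 0 ≤ Real.log p := Real.log_nonneg (by exact_mod_cast hp.out.one_le)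
        positivity
      have h7 := pow_lt_pow_left₀ h3 h6 hφ
      linarith
    · -- p ≤ 12
      have hpp := hp.out
      have hcase : p = 5 ∨ p = 7 ∨ p = 11 := by
        have h1 : p < 13 := by omega
        interval_cases p <;> first | omega | (exfalso; revert hpp; norm_num)
      rcases hcase with rfl | rfl | rfl
      · exfalso
        have : g ≤ 4 := Nat.le_of_dvd (by norm_num) hgd
        interval_cases g <;> revert hg hgd hg1 <;> decide
      · have : g ≤ 6 := Nat.le_of_dvd (by norm_num) hgd
        have hg3 : g = 3 := by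
          interval_cases g <;> revert hg hgd hg1 <;> decide
        subst hg3
        refine ⟨2, ?_⟩
        rw [Reg, mem_filter, mem_Icc]
        refine ⟨by omega, by decide, ?_⟩
        rw [show 2 * 2 = 4 from rfl, bern_four]
        decide
      · have : g ≤ 10 := Nat.le_of_dvd (by norm_num) hgd
        have hg3 : g = 5 := by
          interval_cases g <;> revert hg hgd hg1 <;> decide
        subst hg3
        refine ⟨3, ?_⟩
        rw [Reg, mem_filter, mem_Icc]
        refine ⟨by omega, by decide, ?_⟩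
        rw [show 2 * 3 = 6 from rfl, bern_six]
        decide

theorem small_exp (ε : ℝ) (hε : 0 < ε) : ∃ P : ℕ, ∀ p : ℕ, P ≤ p →
    Real.log (1 + Real.log p) / Real.log p ≤ ε := by
  have h1 : ∀ᶠ y : ℝ in atTop, Real.log y ≤ (ε / 2) * y := by
    have := Real.isLittleO_log_id_atTop.bound (show 0 < ε / 2 by positivity)
    filter_upwards [this, eventually_ge_atTop 1] with y hy hy1
    have h2 : ‖Real.log y‖ = Real.log y := by
      rw [Real.norm_of_nonneg (Real.log_nonneg hy1)]
    have h3 : ‖id y‖ = y := by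
      rw [id, Real.norm_of_nonneg (by linarith)]
    rw [h2, h3] at hy
    exact hy
  have h2 : Tendsto (fun p : ℕ => 1 + Real.log p) atTop atTop :=
    tendsto_atTop_add_const_left _ _ (Real.tendsto_log_atTop.comp tendsto_natCast_atTop_atTop)
  have h3 : ∀ᶠ p : ℕ in atTop, Real.log (1 + Real.log p) ≤ (ε / 2) * (1 + Real.log p) :=
    h2.eventually h1
  have h4 : ∀ᶠ p : ℕ in atTop, 1 ≤ Real.log p :=
    (Real.tendsto_log_atTop.comp tendsto_natCast_atTop_atTop).eventually (eventually_ge_atTop 1)
  obtain ⟨P, hP⟩ := eventually_atTop.mp (h3.and h4)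
  refine ⟨P, fun p hp => ?_⟩
  obtain ⟨h5, h6⟩ := hP p hp
  rw [div_le_iff₀ (by linarith)]
  nlinarith

theorem asymp (ε : ℝ) (hε : 0 < ε) : ∃ P : ℕ, ∀ p : ℕ, p.Prime → P ≤ p → ∀ g : ℕ, Odd g →
    g ∣ p - 1 →
    ((Irr p g).card : ℝ) ≤ (1 / 2 + ε) * Nat.totient ((p - 1) / g) ∧
    (1 / 2 - ε) * Nat.totient ((p - 1) / g) ≤ (Reg p g).card + (if g = 1 then 1 else 0) := by
  obtain ⟨P, hP⟩ := small_exp ε hε
  refine ⟨max P 3, fun p hp hPp g hg hgd => ?_⟩
  have : Fact p.Prime := ⟨hp⟩
  have hp3 : 3 ≤ p := le_trans (le_max_right _ _) hPp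
  have h1 := log_form p hp3 g hg hgd
  have h2 := hP p (le_trans (le_max_left _ _) hPp)
  have h3 : ((Irr p g).card : ℝ) ≤ (1 / 2 + ε) * Nat.totient ((p - 1) / g) := by
    refine h1.trans ?_
    exact mul_le_mul_of_nonneg_right (by linarith) (Nat.cast_nonneg _)
  refine ⟨h3, ?_⟩
  have h4 := reg_add_irr p (hp.odd_of_ne_two (by omega)) hp3 g hg hgd
  have h5 : ((Reg p g).card : ℝ) + (Irr p g).card + (if g = 1 then 1 else 0) =
      Nat.totient ((p - 1) / g) := by
    rw [← h4]
    push_cast
    rfl
  have h6 : (1 / 2 - ε) * (Nat.totient ((p - 1) / g) : ℝ) =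
      Nat.totient ((p - 1) / g) - (1 / 2 + ε) * Nat.totient ((p - 1) / g) := by ring
  rw [h6]
  linarith

end Pool.Agent.Q279.RP
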