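import Pool.Agent.Q279.RP.Char

/-!
The gcd class bound for irregular indices: resultant of the cyclotomic polynomial and the half sum
polynomial.
-/

set_option autoImplicit false

namespace Pool.Agent.Q279.RP

open Finset Polynomial

/-- the resultant as a product over primitive roots -/
theorem resultant_prod {R : Type*} [CommRing R] [IsDomain R] (m : ℕ) (G : ℤ[X]) (n : ℕ)
    (hn : G.natDegree ≤ n) (μ : R) (hμ : IsPrimitiveRoot μ m) :
    ((resultant (cyclotomic m ℤ) G (cyclotomic m ℤ).natDegree n : ℤ) : R) =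
      ∏ z ∈ primitiveRoots m R, (G.map (Int.castRingHom R)).eval z := by
  have h1 := resultant_map_map (cyclotomic m ℤ) G (cyclotomic m ℤ).natDegree n (Int.castRingHom R)
  rw [eq_intCast] at h1
  rw [← h1]
  have h2 : (cyclotomic m ℤ).map (Int.castRingHom R) = ∏ z ∈ primitiveRoots m R, (X - C z) := by
    rw [map_cyclotomic_int, cyclotomic_eq_prod_X_sub_primitiveRoots hμ]
  have hmon : ((cyclotomic m ℤ).map (Int.castRingHom R)).Monic := (cyclotomic.monic m ℤ).map _
  have h3 : ((cyclotomic m ℤ).map (Int.castRingHom R)).natDegree = (cyclotomic m ℤ).natDegree :=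
    (cyclotomic.monic m ℤ).natDegree_map _
  have hsp : ((cyclotomic m ℤ).map (Int.castRingHom R)).Splits := by
    rw [h2]
    exact Splits.prod fun z _ => Splits.X_sub_C z
  rw [← h3, resultant_eq_prod_eval _ _ n ((natDegree_map_le).trans hn) hsp, hmon.leadingCoeff,
    one_pow, one_mul]
  have h4 : ((cyclotomic m ℤ).map (Int.castRingHom R)).roots = (primitiveRoots m R).val := by
    rw [h2]
    exact roots_prod_X_sub_C _
  rw [h4]
  rfl

/-- the Teichmueller lift of a primitive root -/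
theorem exists_teich (p : ℕ) [hp : Fact p.Prime] (r : (ZMod p)ˣ)
    (hr : orderOf r = p - 1) :
    ∃ w : ℤ_[p], IsPrimitiveRoot w (p - 1) ∧ PadicInt.toZMod w = (r : ZMod p) := by
  have hp1 : 1 ≤ p - 1 := by have := hp.out.two_le; omega
  set R : ℕ := (r : ZMod p).val with hR
  have hRr : ((R : ℕ) : ZMod p) = r := ZMod.natCast_zmod_val _
  have hRp : ¬ p ∣ R := by
    intro h
    rw [← ZMod.natCast_eq_zero_iff, hRr] at h
    exact r.ne_zero h
  set F : ℤ[X] := X ^ (p - 1) - 1 with hF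
  have e1 : F.aeval (R : ℤ_[p]) = (((R : ℤ) ^ (p - 1) - 1 : ℤ) : ℤ_[p]) := by
    simp [hF]
  have e2 : F.derivative.aeval (R : ℤ_[p]) = ((((p - 1 : ℕ) : ℤ) * (R : ℤ) ^ (p - 1 - 1) : ℤ) : ℤ_[p]) := by
    simp [hF, derivative_X_pow]
  have n1 : ‖F.aeval (R : ℤ_[p])‖ < 1 := by
    rw [e1, PadicInt.norm_int_lt_one_iff_dvd, ← ZMod.intCast_zmod_eq_zero_iff_dvd _ p]
    push_cast
    rw [hRr, ← Units.val_pow_eq_pow_val, ← hr, pow_orderOf_eq_one]
    simp
  have n2 : ‖F.derivative.aeval (R : ℤ_[p])‖ = 1 := by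
    rw [e2]
    have h3 : ¬ (‖((((p - 1 : ℕ) : ℤ) * (R : ℤ) ^ (p - 1 - 1) : ℤ) : ℤ_[p])‖ < 1) := by
      rw [PadicInt.norm_int_lt_one_iff_dvd]
      intro h
      have hpr : Prime (p : ℤ) := Nat.prime_iff_prime_int.mp hp.out
      rcases hpr.dvd_or_dvd h with h | h
      · have := Nat.le_of_dvd (by omega) (Int.natCast_dvd_natCast.mp h)
        omega
      · exact hRp (Int.natCast_dvd_natCast.mp (hpr.dvd_of_dvd_pow h))
    exact le_antisymm (PadicInt.norm_le_one _) (not_lt.mp h3)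
  obtain ⟨w, hw1, hw2, -, -⟩ := hensels_lemma (p := p) (F := F) (a := (R : ℤ_[p]))
    (by rw [n2, one_pow]; exact n1)
  rw [n2] at hw2
  have hwr : PadicInt.toZMod w = (r : ZMod p) := by
    have h1 : w - (R : ℤ_[p]) ∈ IsLocalRing.maximalIdeal ℤ_[p] := by
      rw [IsLocalRing.mem_maximalIdeal, PadicInt.mem_nonunits]
      exact hw2
    rw [← PadicInt.ker_toZMod, RingHom.mem_ker, map_sub, map_natCast, hRr, sub_eq_zero] at h1
    exact h1
  refine ⟨w, ?_, hwr⟩
  have hw3 : w ^ (p - 1) = 1 := by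
    have := hw1
    rw [hF] at this
    simp only [map_sub, map_pow, aeval_X, map_one] at this
    exact sub_eq_zero.mp this
  refine ⟨hw3, fun l hl => ?_⟩
  rw [← hr]
  apply orderOf_dvd_of_pow_eq_one
  ext
  rw [Units.val_pow_eq_pow_val, ← hwr, ← map_pow, hl, map_one, Units.val_one]

section
variable (p : ℕ) [hp : Fact p.Prime]

/-- the irregular indices `i` with `gcd (2i - 1, p - 1) = g` -/
def Irr (g : ℕ) : Finset ℕ :=
  (Icc 1 ((p - 3) / 2)).filter (fun i => Nat.gcd (2 * i - 1) (p - 1) = g ∧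
    (p : ℤ) ∣ (_root_.bernoulli (2 * i)).num)

theorem main_bound (hp3 : 3 ≤ p) (g : ℕ) (hg : Odd g) (hgd : g ∣ p - 1) :
    (p : ℝ) ^ (Irr p g).card ≤
      (Real.sqrt p * (1 + Real.log p)) ^ Nat.totient ((p - 1) / g) := by
  classical
  obtain ⟨m, hm⟩ := hgd
  have hg0 : 0 < g := hg.pos
  have hmg : m * g = p - 1 := by rw [hm]; ring
  have hm0 : 0 < m := by
    rcases Nat.eq_zero_or_pos m with h | h
    · subst h; omega
    · exact h
  have hdiv : (p - 1) / g = m := by rw [hm]; exact Nat.mul_div_cancel_left m hg0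
  rw [hdiv]
  obtain ⟨r, hr⟩ := IsCyclic.exists_generator (α := (ZMod p)ˣ)
  have hord : orderOf r = p - 1 := by
    rw [orderOf_eq_card_of_forall_mem_zpowers hr, Nat.card_eq_fintype_card, ZMod.card_units p]
  -- discrete logarithm
  have hind0 : ∀ a : ℕ, ∃ i : ℕ, a ∈ Icc 1 ((p - 1) / 2) → ((a : ℕ) : ZMod p) = (r : ZMod p) ^ i := by
    intro a
    by_cases ha : a ∈ Icc 1 ((p - 1) / 2)
    · have hane : ((a : ℕ) : ZMod p) ≠ 0 := by
        rw [mem_Icc] at ha
        intro hc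
        rw [ZMod.natCast_eq_zero_iff] at hc
        have := Nat.le_of_dvd (by omega) hc
        omega
      have h1 := hr (Units.mk0 _ hane)
      rw [← mem_powers_iff_mem_zpowers, Submonoid.mem_powers_iff] at h1
      obtain ⟨i, hi⟩ := h1
      refine ⟨i, fun _ => ?_⟩
      rw [← Units.val_pow_eq_pow_val, hi]
      rfl
    · exact ⟨0, fun h => absurd h ha⟩
  choose ind hind using hind0
  set G : ℤ[X] := ∑ a ∈ Icc 1 ((p - 1) / 2), X ^ ind a with hG
  set N : ℤ := resultant (cyclotomic m ℤ) G (cyclotomic m ℤ).natDegree G.natDegree with hN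
  have hGeval : ∀ {R : Type} [CommRing R] (z : R), (G.map (Int.castRingHom R)).eval z =
      ∑ a ∈ Icc 1 ((p - 1) / 2), z ^ ind a := by
    intro R _ z
    rw [hG, Polynomial.map_sum, eval_finsetSum]
    refine sum_congr rfl fun a _ => ?_
    simp
  -- complex side
  have hC : (N : ℂ) = ∏ z ∈ primitiveRoots m ℂ, ∑ a ∈ Icc 1 ((p - 1) / 2), z ^ ind a := by
    rw [hN, resultant_prod m G _ le_rfl _ (Complex.isPrimitiveRoot_exp m hm0.ne')]
    exact prod_congr rfl fun z _ => hGeval z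
  have hz : ∀ z ∈ primitiveRoots m ℂ, ∑ a ∈ Icc 1 ((p - 1) / 2), z ^ ind a ≠ 0 ∧
      ‖∑ a ∈ Icc 1 ((p - 1) / 2), z ^ ind a‖ ≤ Real.sqrt p * (1 + Real.log p) := by
    intro z hz
    exact half_root p hp3 r hr m g hmg hg z ((mem_primitiveRoots hm0).mp hz) ind hind
  have hN0 : N ≠ 0 := by
    intro h
    have : (N : ℂ) = 0 := by rw [h]; simp
    rw [hC, prod_eq_zero_iff] at this
    obtain ⟨z, hz1, hz2⟩ := this
    exact (hz z hz1).1 hz2
  have hNle : |(N : ℝ)| ≤ (Real.sqrt p * (1 + Real.log p)) ^ Nat.totient m := by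
    have h1 : |(N : ℝ)| = ‖(N : ℂ)‖ := by
      rw [Complex.norm_intCast]
    rw [h1, hC, norm_prod]
    calc ∏ z ∈ primitiveRoots m ℂ, ‖∑ a ∈ Icc 1 ((p - 1) / 2), z ^ ind a‖
        ≤ ∏ z ∈ primitiveRoots m ℂ, (Real.sqrt p * (1 + Real.log p)) :=
          prod_le_prod (fun _ _ => norm_nonneg _) fun z h => (hz z h).2
      _ = _ := by rw [prod_const, Complex.card_primitiveRoots]
  -- p-adic side
  obtain ⟨w, hw, hwr⟩ := exists_teich p r hord
  have hwm : IsPrimitiveRoot (w ^ g) m := by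
    have := hw.pow (by omega) (show p - 1 = g * m by rw [hm])
    exact this
  have hP : (N : ℤ_[p]) = ∏ z ∈ primitiveRoots m ℤ_[p], ∑ a ∈ Icc 1 ((p - 1) / 2), z ^ ind a := by
    rw [hN, resultant_prod m G _ le_rfl _ hwm]
    exact prod_congr rfl fun z _ => hGeval z
  have hinj : Set.InjOn (fun i : ℕ => w ^ (2 * i - 1)) (Irr p g : Set ℕ) := by
    intro i hi j hj hij
    have hi2 := (mem_filter.mp hi).1
    have hj2 := (mem_filter.mp hj).1
    rw [mem_Icc] at hi2 hj2
    have := hw.pow_inj (by omega) (by omega) hij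
    omega
  have hsub : (Irr p g).image (fun i : ℕ => w ^ (2 * i - 1)) ⊆ primitiveRoots m ℤ_[p] := by
    intro z hz
    rw [mem_image] at hz
    obtain ⟨i, hi, rfl⟩ := hz
    rw [Irr, mem_filter, mem_Icc] at hi
    rw [mem_primitiveRoots hm0]
    have h1 := hi.2.1
    have h2 : g ∣ 2 * i - 1 := by rw [← h1]; exact Nat.gcd_dvd_left _ _
    obtain ⟨j, hj⟩ := h2
    rw [hj, pow_mul]
    apply hwm.pow_of_coprime
    rw [hj, ← hmg, mul_comm m g, Nat.gcd_mul_left] at h1
    exact Nat.eq_of_mul_eq_mul_left hg0 (by rw [h1, mul_one])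
  have hdvd : ∀ i ∈ Irr p g, (p : ℤ_[p]) ∣ ∑ a ∈ Icc 1 ((p - 1) / 2), (w ^ (2 * i - 1)) ^ ind a := by
    intro i hi
    rw [Irr, mem_filter, mem_Icc] at hi
    have h1 := half_sum p (2 * i) (by omega) (even_two_mul i) (by omega) hi.2.2
    have h2 : PadicInt.toZMod (∑ a ∈ Icc 1 ((p - 1) / 2), (w ^ (2 * i - 1)) ^ ind a) = 0 := by
      rw [map_sum]
      have h3 : ∀ a ∈ Icc 1 ((p - 1) / 2), PadicInt.toZMod ((w ^ (2 * i - 1)) ^ ind a) =
          ((a : ℕ) : ZMod p) ^ (2 * i - 1) := by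
        intro a ha
        rw [map_pow, map_pow, hwr, hind a ha, ← pow_mul, ← pow_mul, mul_comm]
      rw [sum_congr rfl h3]
      have h4 := (ZMod.intCast_zmod_eq_zero_iff_dvd _ p).mpr h1
      push_cast at h4
      exact h4
    rw [← RingHom.mem_ker, PadicInt.ker_toZMod, PadicInt.maximalIdeal_eq_span_p,
      Ideal.mem_span_singleton] at h2
    exact h2
  have hpN : (p : ℤ_[p]) ^ (Irr p g).card ∣ (N : ℤ_[p]) := by
    rw [hP]
    refine dvd_trans ?_ (prod_dvd_prod_of_subset _ _ _ hsub)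
    rw [prod_image hinj, ← prod_const]
    exact prod_dvd_prod_of_dvd _ _ hdvd
  rw [PadicInt.pow_p_dvd_int_iff] at hpN
  have h5 : (p : ℤ) ^ (Irr p g).card ≤ |N| := by
    apply Int.le_of_dvd (abs_pos.mpr hN0)
    rw [dvd_abs]
    exact_mod_cast hpN
  calc (p : ℝ) ^ (Irr p g).card ≤ ((|N| : ℤ) : ℝ) := by exact_mod_cast h5
    _ = |(N : ℝ)| := by push_cast; rfl
    _ ≤ _ := hNle

end

end Pool.Agent.Q279.RP
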